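import Pool.Agent.TH982.KRW.Main

set_option autoImplicit false

/-!
# Killed random walk: non-analyticity beyond saturation in all generic directions

The argument of `Pool.Agent.TH982.KRW.Main` for the direction `(2,1)/√5`, carried out for every
vector `s` with `s₁ ≠ 0`, `s₂ ≠ 0`, `|s₁| ≠ |s₂|`.
-/

namespace Pool.Agent.Y919.KRW

open Filter Topology Pool.Agent.TH982.KRW
open scoped ENNReal

lemma exists_u0' {ρ : ℝ} (hρ : 1 < ρ) : ∃ u0 : ℝ, 0 < u0 ∧ u0 < 1 ∧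
    ∀ u v : ℝ, u0 < u → u < 1 → u0 < v → v < 1 → D u * F v < ρ * (D v * F u) := by
  have h1 : (1 : ℝ) ∈ Set.Icc (-1 : ℝ) 1 := by norm_num
  have hD1 : 0 < D 1 := D_pos one_pos le_rfl
  have hF1 : 1 ≤ F 1 := F_one_le (by norm_num)
  have hF1' : 0 < F 1 := by linarith
  have hρ0 : 0 < ρ := by linarith
  obtain ⟨θ, hθ0, hθ1, hθ2⟩ : ∃ θ : ℝ, 0 < θ ∧ θ < 1 ∧ 1 < ρ * (θ * θ) := by
    refine ⟨(1 + ρ) / (2 * ρ), by positivity, ?_, ?_⟩
    · rw [div_lt_one (by positivity)]; linarith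
    · have e : ρ * ((1 + ρ) / (2 * ρ) * ((1 + ρ) / (2 * ρ))) = (1 + ρ) ^ 2 / (4 * ρ) := by
        field_simp; ring
      rw [e, lt_div_iff₀ (by positivity)]
      nlinarith [sq_pos_of_pos (sub_pos.2 hρ)]
  have cD := (continuousOn_D 1 h1)
  have cF := (continuousOn_F 1 h1)
  have eD : ∀ᶠ u in 𝓝[Set.Icc (-1 : ℝ) 1] 1, θ * D 1 < D u :=
    cD.eventually (lt_mem_nhds (by nlinarith))
  have eF : ∀ᶠ u in 𝓝[Set.Icc (-1 : ℝ) 1] 1, θ * F 1 < F u :=
    cF.eventually (lt_mem_nhds (by nlinarith))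
  have e := eD.and eF
  rw [eventually_nhdsWithin_iff, Metric.eventually_nhds_iff] at e
  obtain ⟨ε, hε, he⟩ := e
  refine ⟨max (1 / 2) (1 - ε), by positivity, max_lt (by norm_num) (by linarith), ?_⟩
  intro u v hu0 hu1 hv0 hv1
  have hu2 : 1 / 2 < u := lt_of_le_of_lt (le_max_left _ _) hu0
  have hv2 : 1 / 2 < v := lt_of_le_of_lt (le_max_left _ _) hv0
  have hu3 : 1 - ε < u := lt_of_le_of_lt (le_max_right _ _) hu0
  have hv3 : 1 - ε < v := lt_of_le_of_lt (le_max_right _ _) hv0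
  have hu := he (y := u) (by rw [Real.dist_eq, abs_sub_comm, abs_of_pos (by linarith)]; linarith)
    ⟨by linarith, hu1.le⟩
  have hv := he (y := v) (by rw [Real.dist_eq, abs_sub_comm, abs_of_pos (by linarith)]; linarith)
    ⟨by linarith, hv1.le⟩
  have hDu : D u ≤ D 1 := D_mono (by linarith) hu1.le le_rfl
  have hFv : F v ≤ F 1 := F_le (by linarith) hv1.le le_rfl
  have hθF : 0 < θ * F 1 := mul_pos hθ0 hF1'
  have hθD : 0 < θ * D 1 := mul_pos hθ0 hD1
  calc D u * F v ≤ D 1 * F 1 := mul_le_mul hDu hFv (by linarith [F_one_le (u := v) (by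
        rw [abs_of_pos (by linarith)]; exact hv1.le)]) hD1.le
    _ = 1 * (D 1 * F 1) := (one_mul _).symm
    _ < ρ * (θ * θ) * (D 1 * F 1) := mul_lt_mul_of_pos_right hθ2 (mul_pos hD1 hF1')
    _ = ρ * ((θ * D 1) * (θ * F 1)) := by ring
    _ ≤ ρ * (D v * F u) := by
        refine mul_le_mul_of_nonneg_left ?_ hρ0.le
        exact mul_le_mul hv.1.le hu.2.le hθF.le (by linarith [hv.1])

lemma exists_eps' {c : ℝ} (hc : 1 ≤ c) : ∃ ε : ℝ, 0 < ε ∧ ε < 1 / 8 ∧ c * ε < 1 / 8 ∧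
    F (1 - ε) * F (c * ε) < F 1 * F 0 := by
  have hc0 : 0 < c := by linarith
  have h0 : (0 : ℝ) ∈ Set.Icc (-1 : ℝ) 1 := by norm_num
  have hF0 : 1 ≤ F 0 := F_one_le (by norm_num)
  have hF1 : 1 ≤ F 1 := F_one_le (by norm_num)
  have hDh : 0 < D (1 / 2) := D_pos (by norm_num) (by norm_num)
  set κ := D (1 / 2) * F 0 / (2 * c * F 1) with hκ
  have hκ0 : 0 < κ := by positivity
  have cD := (continuousOn_D 0 h0)
  have eD : ∀ᶠ u in 𝓝[Set.Icc (-1 : ℝ) 1] 0, D u < κ :=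
    cD.eventually (gt_mem_nhds (by rw [D_zero]; exact hκ0))
  rw [eventually_nhdsWithin_iff, Metric.eventually_nhds_iff] at eD
  obtain ⟨δ, hδ, he⟩ := eD
  obtain ⟨ε, hε0, hε1, hε2⟩ : ∃ ε : ℝ, 0 < ε ∧ c * ε ≤ 1 / 16 ∧ c * ε < δ := by
    refine ⟨min (1 / 16) (δ / 2) / c, by positivity, ?_, ?_⟩
    · rw [mul_div_cancel₀ _ hc0.ne']; exact min_le_left _ _
    · rw [mul_div_cancel₀ _ hc0.ne']
      exact lt_of_le_of_lt (min_le_right _ _) (by linarith)
  have hεc : ε ≤ c * ε := by nlinarith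
  have hcε : 0 < c * ε := mul_pos hc0 hε0
  refine ⟨ε, hε0, by linarith, by linarith, ?_⟩
  have hD3 : D (c * ε) < κ := he (by
    rw [Real.dist_eq, sub_zero, abs_of_pos hcε]; exact hε2) ⟨by linarith, by linarith⟩
  -- mean value bounds
  have m1 : F 1 - F (1 - ε) ≥ ε * D (1 / 2) := by
    have hc : ContinuousOn F (Set.Icc (1 - ε) 1) :=
      continuousOn_F.mono (Set.Icc_subset_Icc (by linarith) le_rfl)
    obtain ⟨x, hx1, hx2⟩ := exists_hasDerivAt_eq_slope F D (by linarith : 1 - ε < 1) hc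
      (fun x hx => hasDerivAt_F ⟨by linarith [hx.1], hx.2⟩)
    have hDc : D (1 / 2) ≤ D x := D_mono (by norm_num) (by linarith [hx1.1]) hx1.2.le
    have : F 1 - F (1 - ε) = D x * ε := by
      rw [hx2, sub_sub_cancel, div_mul_cancel₀ _ hε0.ne']
    rw [this]; nlinarith
  have m2 : F (c * ε) - F 0 ≤ c * ε * κ := by
    have hc' : ContinuousOn F (Set.Icc 0 (c * ε)) :=
      continuousOn_F.mono (Set.Icc_subset_Icc (by linarith) (by linarith))
    obtain ⟨x, hx1, hx2⟩ := exists_hasDerivAt_eq_slope F D hcε hc'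
      (fun x hx => hasDerivAt_F ⟨by linarith [hx.1], by linarith [hx.2]⟩)
    have hDc : D x ≤ D (c * ε) := D_mono hx1.1.le hx1.2.le (by linarith)
    have : F (c * ε) - F 0 = D x * (c * ε) := by
      rw [hx2, sub_zero, div_mul_cancel₀ _ hcε.ne']
    rw [this]; nlinarith
  have hF1' : 0 < F 1 := by linarith
  have hκe : κ * (2 * c * F 1) = D (1 / 2) * F 0 := by
    rw [hκ]; field_simp
  have h1e : 0 < F (1 - ε) := by
    linarith [F_one_le (u := 1 - ε) (by rw [abs_of_pos (by linarith)]; linarith)]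
  calc F (1 - ε) * F (c * ε) ≤ F (1 - ε) * (F 0 + c * ε * κ) :=
        mul_le_mul_of_nonneg_left (by linarith) h1e.le
    _ ≤ (F 1 - ε * D (1 / 2)) * (F 0 + c * ε * κ) :=
        mul_le_mul_of_nonneg_right (by linarith) (by positivity)
    _ = F 1 * F 0 - ε * (D (1 / 2) * F 0) + ε * (κ * (2 * c * F 1)) / 2
          - ε * D (1 / 2) * (c * ε * κ) := by
        ring
    _ < F 1 * F 0 := by
        rw [hκe]
        have h2 : 0 < ε * (D (1 / 2) * F 0) := by positivity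
        have h3 : 0 < ε * D (1 / 2) * (c * ε * κ) := by positivity
        linarith

/-- lower bound by the facet point -/
lemma nu_ge_facet' {s : ℝ × ℝ} (hs1 : 0 < s.1) (hs2 : 0 < s.2) {τ : ℝ} (h0 : 0 < τ) (h1 : τ < 1) :
    s.1 + τ * s.2 ≤ nu psi s (Lam τ) := by
  refine le_of_forall_pos_lt_add fun ε hε => ?_
  have hs : 0 < s.1 + s.2 := by linarith
  set δ : ℝ := min (τ / 2) (ε / (2 * (s.1 + s.2))) with hδ
  have hδ0 : 0 < δ := by positivity
  have hδ1 : δ ≤ τ / 2 := min_le_left _ _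
  have hδ2 : δ * (s.1 + s.2) ≤ ε / 2 := by
    calc δ * (s.1 + s.2) ≤ ε / (2 * (s.1 + s.2)) * (s.1 + s.2) :=
          mul_le_mul_of_nonneg_right (min_le_right _ _) hs.le
      _ = ε / 2 := by field_simp
  have hlt : Jh (1 - δ, τ - δ) < Jh (1, τ) :=
    Jh_lt (by linarith) (by linarith) le_rfl (by linarith) (by linarith) h1.le
  have hL := Lam_pos h0.le h1.le
  have h := nu_ge good_psi hL (Lam_lt_one h0.le h1.le) s (1 - δ, τ - δ)
    (Lt_lt_one hL.le (by rw [abs_of_pos (by simp only; linarith)]; simp only; linarith)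
      (by rw [abs_of_pos (by simp only; linarith)]; simp only; linarith)
      (lt_of_lt_of_eq (mul_lt_mul_of_pos_left hlt hL) (Lam_mul h0.le h1.le)))
  simp only at h
  nlinarith

/-- Upper bound by the facet point, close to saturation. -/
lemma nu_le_facet' {s : ℝ × ℝ} (hs1 : 0 < s.1) (hs2 : 0 < s.2) {u0 : ℝ} (hu0 : 0 < u0)
    (hu : ∀ u v : ℝ, u0 < u → u < 1 → u0 < v → v < 1 → D u * F v < s.1 / s.2 * (D v * F u))
    {τ : ℝ} (h0 : u0 < τ) (h1 : τ < 1) : nu psi s (Lam τ) ≤ s.1 + τ * s.2 := by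
  have hτ0 : 0 < τ := hu0.trans h0
  have hL := Lam_pos hτ0.le h1.le
  refine le_of_forall_pos_le_add fun ε hε => ?_
  set τ' : ℝ := min (τ + ε / s.2) ((1 + τ) / 2) with hτ'
  have hτ1 : τ < τ' := lt_min (by linarith [div_pos hε hs2]) (by linarith)
  have hτ2 : τ' < 1 := lt_of_le_of_lt (min_le_right _ _) (by linarith)
  have hτ3 : τ' ≤ τ + ε / s.2 := min_le_left _ _
  have hF1 : 1 ≤ F 1 := F_one_le (by norm_num)
  have hFτ : 1 ≤ F τ := F_one_le (by rw [abs_of_pos hτ0]; exact h1.le)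
  have hFτ' : F τ < F τ' := F_lt hτ0.le hτ1 hτ2.le
  have hFu0 : F u0 < F 1 := F_lt hu0.le (h0.trans h1) le_rfl
  have hval : F 1 * F τ / F τ' < F 1 := by
    rw [div_lt_iff₀ (by linarith)]
    exact mul_lt_mul_of_pos_left hFτ' (by linarith)
  -- choose `t1`
  have hcont : ContinuousOn F (Set.Icc u0 1) :=
    continuousOn_F.mono (Set.Icc_subset_Icc (by linarith) le_rfl)
  obtain ⟨y, hy1, hy2⟩ := exists_between (max_lt hFu0 hval)
  obtain ⟨t1, ht1, ht1F⟩ := intermediate_value_Ioo (h0.trans h1).le hcont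
    ⟨lt_of_le_of_lt (le_max_left _ _) hy1, hy2⟩
  have hFt1 : F 1 * F τ / F τ' < F t1 := by
    rw [ht1F]; exact lt_of_le_of_lt (le_max_right _ _) hy1
  have hFt1' : F t1 < F 1 := by rw [ht1F]; exact hy2
  have hFt1p : 1 ≤ F t1 := F_one_le (by
    rw [abs_of_pos (hu0.trans ht1.1)]; exact ht1.2.le)
  have hcont2 : ContinuousOn F (Set.Icc τ τ') :=
    continuousOn_F.mono (Set.Icc_subset_Icc (by linarith) hτ2.le)
  have hin : F 1 * F τ / F t1 ∈ Set.Ioo (F τ) (F τ') := by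
    constructor
    · rw [lt_div_iff₀ (by linarith)]
      nlinarith
    · rw [div_lt_iff₀ (by linarith)]
      rw [div_lt_iff₀ (by linarith)] at hFt1
      linarith
  obtain ⟨t2, ht2, ht2F⟩ := intermediate_value_Ioo hτ1.le hcont2 hin
  have hprod : F t1 * F t2 = F 1 * F τ := by
    rw [ht2F]; field_simp
  have hone : Lam τ * Jh (t1, t2) = 1 := by
    have : Jh (t1, t2) = Jh (1, τ) := by unfold Jh; simp only [hprod]
    rw [this]; exact Lam_mul hτ0.le h1.le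
  have hut := hu t1 t2 ht1.1 ht1.2 (h0.trans ht2.1) (ht2.2.trans hτ2)
  have hratio : m1 (Lam τ) (t1, t2) * s.2 < m2 (Lam τ) (t1, t2) * s.1 := by
    unfold m1 m2
    simp only
    have hp : 0 < Lam τ * cc * s.2 := mul_pos (mul_pos hL cc_pos) hs2
    have h7 := mul_lt_mul_of_pos_left hut hp
    have e1 : Lam τ * cc * s.2 * (s.1 / s.2 * (D t2 * F t1)) = Lam τ * cc * (F t1 * D t2) * s.1 := by
      field_simp
    rw [e1] at h7
    linarith
  have h := nu_le hL (Lam_lt_one hτ0.le h1.le) (t := (t1, t2)) ⟨hu0.trans ht1.1, ht1.2⟩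
    ⟨hτ0.trans ht2.1, ht2.2.trans hτ2⟩ hone hs2 hratio
  refine h.trans ?_
  simp only
  have h5 : t2 ≤ τ + ε / s.2 := ht2.2.le.trans hτ3
  have h6 : t2 * s.2 ≤ (τ + ε / s.2) * s.2 := mul_le_mul_of_nonneg_right h5 hs2.le
  have h7 : (τ + ε / s.2) * s.2 = τ * s.2 + ε := by field_simp
  linarith

/-- For small `τ` the facet point is not the maximiser. -/
lemma exists_tau0' {s : ℝ × ℝ} (hs1 : 0 < s.1) (hs2 : 0 < s.2) :
    ∃ τ0 : ℝ, 0 < τ0 ∧ τ0 < 1 ∧ ∀ τ, 0 < τ → τ < τ0 →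
    s.1 + τ * s.2 < nu psi s (Lam τ) := by
  obtain ⟨c, hc1, hc⟩ : ∃ c : ℝ, 1 ≤ c ∧ c * s.2 = s.1 + s.2 := by
    refine ⟨s.1 / s.2 + 1, by have := div_pos hs1 hs2; linarith, by field_simp⟩
  obtain ⟨ε, hε0, hε1, hε2, hε⟩ := exists_eps' hc1
  have hcε : 0 < c * ε := mul_pos (by linarith) hε0
  have hc' : ContinuousOn (fun τ : ℝ => F (1 - ε) * F (τ + c * ε)) (Set.Icc 0 (1 / 2)) := by
    refine continuousOn_const.mul (continuousOn_F.comp (by fun_prop) ?_)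
    intro τ hτ
    exact ⟨by linarith [hτ.1], by linarith [hτ.2]⟩
  have h0 : (0 : ℝ) ∈ Set.Icc (0 : ℝ) (1 / 2) := by norm_num
  have hc0 := hc' 0 h0
  have hev : ∀ᶠ τ in 𝓝[Set.Icc (0 : ℝ) (1 / 2)] 0, F (1 - ε) * F (τ + c * ε) < F 1 * F 0 :=
    hc0.eventually (gt_mem_nhds (by simpa using hε))
  rw [eventually_nhdsWithin_iff, Metric.eventually_nhds_iff] at hev
  obtain ⟨δ, hδ, hev⟩ := hev
  refine ⟨min (1 / 2) δ, by positivity, lt_of_le_of_lt (min_le_left _ _) (by norm_num), ?_⟩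
  intro τ hτ0 hτ1
  have a1 : τ < 1 / 2 := lt_of_lt_of_le hτ1 (min_le_left _ _)
  have a2 : τ < δ := lt_of_lt_of_le hτ1 (min_le_right _ _)
  have h3 := hev (y := τ) (by rw [Real.dist_eq, sub_zero, abs_of_pos hτ0]; exact a2)
    ⟨hτ0.le, a1.le⟩
  have h4 : F 0 ≤ F τ := F_le le_rfl hτ0.le (by linarith)
  have hF1 : 1 ≤ F 1 := F_one_le (by norm_num)
  have hL := Lam_pos hτ0.le (by linarith : τ ≤ 1)
  have hlt : Jh (1 - ε, τ + c * ε) < Jh (1, τ) := by
    unfold Jh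
    simp only
    refine mul_lt_mul_of_pos_left ?_ cc_pos
    nlinarith
  have h := nu_ge good_psi hL (Lam_lt_one hτ0.le (by linarith)) s (1 - ε, τ + c * ε)
    (Lt_lt_one hL.le (by rw [abs_of_pos (by simp only; linarith)]; simp only; linarith)
      (by rw [abs_of_pos (by simp only; linarith)]; simp only; linarith)
      (lt_of_lt_of_eq (mul_lt_mul_of_pos_left hlt hL) (Lam_mul hτ0.le (by linarith))))
  simp only at h
  have e : (1 - ε) * s.1 + (τ + c * ε) * s.2 = s.1 + τ * s.2 + ε * s.2 := by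
    have : (1 - ε) * s.1 + (τ + c * ε) * s.2 = s.1 - ε * s.1 + τ * s.2 + ε * (c * s.2) := by ring
    rw [this, hc]; ring
  rw [e] at h
  nlinarith [mul_pos hε0 hs2]

/-- A point of non-analyticity strictly between `λ_sat(s)` and `λ_exp = 1`. -/
def Bad (s : ℝ × ℝ) : Prop := ∃ lam : ℝ, 0 < lam ∧ lam < 1 ∧ lamSat psi s < lam ∧
  (lam : EReal) < lamExp psi ∧ ¬ AnalyticAt ℝ (nu psi s) lam

theorem bad_cone {s : ℝ × ℝ} (hs2 : 0 < s.2) (hs : s.2 < s.1) : Bad s := by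
  have hs1 : 0 < s.1 := hs2.trans hs
  obtain ⟨u0, hu00, hu01, hu⟩ := exists_u0' (ρ := s.1 / s.2) (by rw [one_lt_div hs2]; exact hs)
  obtain ⟨τ0, hτ00, hτ01, hτ0⟩ := exists_tau0' hs1 hs2
  set Z : Set ℝ := {τ | 0 < τ ∧ τ < 1 ∧ ∀ τ', τ < τ' → τ' < 1 → nu psi s (Lam τ') =
    s.1 + τ' * s.2} with hZ
  have hu0Z : u0 ∈ Z := ⟨hu00, hu01, fun τ' h1 h2 =>
    le_antisymm (nu_le_facet' hs1 hs2 hu00 hu h1 h2) (nu_ge_facet' hs1 hs2 (hu00.trans h1) h2)⟩
  have hlow : ∀ τ ∈ Z, τ0 ≤ τ := by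
    intro τ hτ
    by_contra hcon
    push Not at hcon
    have h1 := hτ.2.2 ((τ + τ0) / 2) (by linarith) (by linarith)
    have h2 := hτ0 ((τ + τ0) / 2) (by linarith [hτ.1]) (by linarith)
    linarith
  set b : ℝ := sInf Z with hb
  have hbdd : BddBelow Z := ⟨τ0, hlow⟩
  have hb0 : τ0 ≤ b := le_csInf ⟨u0, hu0Z⟩ hlow
  have hb1 : b ≤ u0 := csInf_le hbdd hu0Z
  have hbpos : 0 < b := hτ00.trans_le hb0
  have hblt : b < 1 := hb1.trans_lt hu01
  have hright : ∀ τ', b < τ' → τ' < 1 → nu psi s (Lam τ') = s.1 + τ' * s.2 := by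
    intro τ' h1 h2
    obtain ⟨τ, hτ, hlt⟩ := exists_lt_of_csInf_lt ⟨u0, hu0Z⟩ h1
    exact hτ.2.2 τ' hlt h2
  refine ⟨Lam b, Lam_pos hbpos.le hblt.le, Lam_lt_one hbpos.le hblt.le, ?_,
    lt_lamExp (Lam_lt_one hbpos.le hblt.le), ?_⟩
  · set τ' : ℝ := (b + 1) / 2 with hτ'
    have h1 : b < τ' := by rw [hτ']; linarith
    have h2 : τ' < 1 := by rw [hτ']; linarith
    have h3 : Lam τ' < Lam b := Lam_lt hbpos.le h1 h2.le
    have hL' := Lam_pos (by linarith : 0 ≤ τ') h2.le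
    refine lt_of_le_of_lt ?_ h3
    refine Real.sSup_le ?_ hL'.le
    rintro lam ⟨hl0, hl1, hl2⟩
    rw [lamC_eq good_psi] at hl1
    by_contra hcon
    push Not at hcon
    have h4 := nu_anti good_psi hL' hcon.le hl1 s
    rw [hright τ' h1 h2, hl2] at h4
    rw [abs_of_pos hs1, abs_of_pos hs2] at h4
    nlinarith
  · intro ha
    have hcomp : AnalyticAt ℝ (fun τ => nu psi s (Lam τ)) b :=
      ha.comp (Lam_analytic hbpos hblt)
    have hh : AnalyticAt ℝ (fun τ => nu psi s (Lam τ) - (s.1 + τ * s.2)) b :=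
      hcomp.sub (analyticAt_const.add (analyticAt_id.mul analyticAt_const))
    rcases hh.eventually_eq_zero_or_eventually_ne_zero with h | h
    · rw [Metric.eventually_nhds_iff] at h
      obtain ⟨ε, hε, hball⟩ := h
      set δ : ℝ := min (ε / 2) (b / 2) with hδ
      have hδ0 : 0 < δ := by positivity
      have hδ1 : δ ≤ ε / 2 := min_le_left _ _
      have hδ2 : δ ≤ b / 2 := min_le_right _ _
      have hmem : b - δ ∈ Z := by
        refine ⟨by linarith, by linarith, fun τ' h1 h2 => ?_⟩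
        by_cases h3 : b < τ'
        · exact hright τ' h3 h2
        · push Not at h3
          have := hball (y := τ') (by
            rw [Real.dist_eq, abs_sub_comm, abs_of_nonneg (by linarith)]; linarith)
          linarith
      have := csInf_le hbdd hmem
      linarith
    · have h2 : ∀ᶠ τ in 𝓝[>] b, nu psi s (Lam τ) - (s.1 + τ * s.2) ≠ 0 :=
        h.filter_mono (nhdsWithin_mono _ fun x hx => ne_of_gt hx)
      have h3 : ∀ᶠ τ in 𝓝[>] b, τ < 1 :=
        (gt_mem_nhds hblt).filter_mono nhdsWithin_le_nhds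
      obtain ⟨τ, hτ1, hτ2, hτ3⟩ := (h2.and (h3.and self_mem_nhdsWithin)).exists
      exact hτ1 (by rw [hright τ hτ3 hτ2]; ring)

/-! ### The symmetries of the square -/

lemma walks_equiv (e : Sx ≃+ Sx) (he : ∀ x, J psi (e x) = J psi x) (lam : ℝ) (n : ℕ) (x : Sx) :
    walks psi lam n (e x) = walks psi lam n x := by
  induction n generalizing x with
  | zero =>
    rw [walks_zero, walks_zero]
    simp
  | succ n ih =>
    rw [walks_succ, walks_succ, ← e.toEquiv.tsum_eq]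
    refine tsum_congr fun y => ?_
    show walks psi lam n (e y) * ENNReal.ofReal (lam * J psi (e x - e y)) = _
    rw [ih, ← map_sub, he]

lemma G_equiv (e : Sx ≃+ Sx) (he : ∀ x, J psi (e x) = J psi x) (lam : ℝ) (x : Sx) :
    G psi lam (e x) = G psi lam x := by
  unfold G
  exact tsum_congr fun n => walks_equiv e he lam n x

lemma nu_le_equiv (e : Sx ≃+ Sx) (he : ∀ x, J psi (e x) = J psi x) {s s' : ℝ × ℝ}
    (h : ∀ n, pt s' n - e (pt s n) ∈ Finset.Icc (-1 : ℤ) 1 ×ˢ Finset.Icc (-1 : ℤ) 1)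
    {lam : ℝ} (hl : 0 < lam) (h1 : lam < 1) : nu psi s' lam ≤ nu psi s lam := by
  set S : Finset Sx := Finset.Icc (-1 : ℤ) 1 ×ˢ Finset.Icc (-1 : ℤ) 1 with hS
  set K : ℝ := ∑ y ∈ S, |aa psi lam y| with hK
  have hK' : ∀ y ∈ S, aa psi lam y ≤ K := fun y hy =>
    (le_abs_self _).trans (Finset.single_le_sum (f := fun y => |aa psi lam y|)
      (fun _ _ => abs_nonneg _) hy)
  have t1 := nu_tendsto good_psi hl h1 s'
  have t2 := (nu_tendsto good_psi hl h1 s).add (tendsto_const_div_atTop_nhds_zero_nat K)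
  rw [add_zero] at t2
  refine le_of_tendsto_of_tendsto' t1 t2 fun n => ?_
  rw [← add_div]
  refine div_le_div_of_nonneg_right ?_ (Nat.cast_nonneg n)
  have h2 := aa_add good_psi hl h1 (e (pt s n)) (pt s' n - e (pt s n))
  rw [add_sub_cancel] at h2
  have h3 := hK' _ (h n)
  unfold aa at h2 h3
  have h4 : g psi lam (e (pt s n)) = g psi lam (pt s n) := by
    unfold g; rw [G_equiv e he]
  rw [h4] at h2
  unfold g at h2 h3
  linarith

lemma nu_eq_equiv (e : Sx ≃+ Sx) (he : ∀ x, J psi (e x) = J psi x) {s s' : ℝ × ℝ}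
    (h : ∀ n, pt s' n - e (pt s n) ∈ Finset.Icc (-1 : ℤ) 1 ×ˢ Finset.Icc (-1 : ℤ) 1)
    (h' : ∀ n, pt s n - e (pt s' n) ∈ Finset.Icc (-1 : ℤ) 1 ×ˢ Finset.Icc (-1 : ℤ) 1)
    {lam : ℝ} (hl : 0 < lam) (h1 : lam < 1) : nu psi s' lam = nu psi s lam :=
  le_antisymm (nu_le_equiv e he h hl h1) (nu_le_equiv e he h' hl h1)

lemma bad_congr {s s' : ℝ × ℝ} (h : ∀ lam : ℝ, 0 < lam → lam < 1 → nu psi s' lam = nu psi s lam)
    (ha : |s'.1| + |s'.2| = |s.1| + |s.2|) (hs : Bad s) : Bad s' := by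
  obtain ⟨lam, h0, h1, h2, h3, h4⟩ := hs
  refine ⟨lam, h0, h1, ?_, h3, ?_⟩
  · have : lamSat psi s' = lamSat psi s := by
      unfold lamSat
      congr 1
      ext x
      simp only [Set.mem_ofPred_eq]
      refine and_congr_right fun hx0 => and_congr_right fun hx1 => ?_
      rw [lamC_eq good_psi] at hx1
      rw [h x hx0 hx1, ha]
    rw [this]; exact h2
  · intro hA
    refine h4 (hA.congr ?_)
    filter_upwards [lt_mem_nhds h0, gt_mem_nhds h1] with x hx0 hx1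
    exact h x hx0 hx1

lemma floor_neg_mem (a : ℝ) : ⌊-a + 1 / 2⌋ - -⌊a + 1 / 2⌋ ∈ Finset.Icc (-1 : ℤ) 1 := by
  rw [Finset.mem_Icc]
  have h1 := Int.floor_le (a + 1 / 2)
  have h2 := Int.lt_floor_add_one (a + 1 / 2)
  have h3 := Int.floor_le (-a + 1 / 2)
  have h4 := Int.lt_floor_add_one (-a + 1 / 2)
  constructor
  · have : (-1 : ℝ) < ((⌊-a + 1 / 2⌋ - -⌊a + 1 / 2⌋ : ℤ) : ℝ) + 1 := by push_cast; linarith
    have : (-1 : ℤ) < (⌊-a + 1 / 2⌋ - -⌊a + 1 / 2⌋) + 1 := by exact_mod_cast this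
    omega
  · have : ((⌊-a + 1 / 2⌋ - -⌊a + 1 / 2⌋ : ℤ) : ℝ) ≤ 1 := by push_cast; linarith
    exact_mod_cast this

/-- reflection in the first coordinate -/
def fl1 : Sx ≃+ Sx := (AddEquiv.neg ℤ).prodCongr (AddEquiv.refl ℤ)
/-- reflection in the second coordinate -/
def fl2 : Sx ≃+ Sx := (AddEquiv.refl ℤ).prodCongr (AddEquiv.neg ℤ)
/-- interchange of the coordinates -/
def sw : Sx ≃+ Sx := AddEquiv.prodComm

lemma fl1_apply (x : Sx) : fl1 x = (-x.1, x.2) := rfl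
lemma fl2_apply (x : Sx) : fl2 x = (x.1, -x.2) := rfl
lemma sw_apply (x : Sx) : sw x = (x.2, x.1) := rfl

lemma J_equiv (e : Sx ≃+ Sx) (h1 : ∀ x, psi (e x) = psi x) (h2 : ∀ x, l1 (e x) = l1 x) (x : Sx) :
    J psi (e x) = J psi x := by
  unfold J
  rw [h1, h2]
  simp

lemma J_fl1 (x : Sx) : J psi (fl1 x) = J psi x :=
  J_equiv fl1 (fun x => (psi_symm x).1) (fun x => by rw [fl1_apply]; simp [l1]) x

lemma J_fl2 (x : Sx) : J psi (fl2 x) = J psi x :=
  J_equiv fl2 (fun x => (psi_symm x).2.1) (fun x => by rw [fl2_apply]; simp [l1]) x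

lemma J_sw (x : Sx) : J psi (sw x) = J psi x :=
  J_equiv sw (fun x => (psi_symm x).2.2) (fun x => by rw [sw_apply]; unfold l1; simp only; ring) x

lemma zero_memS : (0 : ℤ) ∈ Finset.Icc (-1 : ℤ) 1 := by simp

lemma bad_fl1 {a b : ℝ} (h : Bad (a, b)) : Bad (-a, b) := by
  have key : ∀ (a : ℝ) (n : ℕ), pt (-a, b) n - fl1 (pt (a, b) n) ∈
      Finset.Icc (-1 : ℤ) 1 ×ˢ Finset.Icc (-1 : ℤ) 1 := by
    intro a n
    rw [fl1_apply, Finset.mem_product]
    unfold pt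
    simp only [Prod.fst_sub, Prod.snd_sub, sub_self]
    refine ⟨?_, zero_memS⟩
    have := floor_neg_mem ((n : ℝ) * a)
    rwa [← mul_neg] at this
  refine bad_congr (fun lam h0 h1 => nu_eq_equiv fl1 J_fl1 (key a) (fun n => ?_) h0 h1)
    (by simp) h
  have := key (-a) n
  rwa [neg_neg] at this

lemma bad_fl2 {a b : ℝ} (h : Bad (a, b)) : Bad (a, -b) := by
  have key : ∀ (b : ℝ) (n : ℕ), pt (a, -b) n - fl2 (pt (a, b) n) ∈
      Finset.Icc (-1 : ℤ) 1 ×ˢ Finset.Icc (-1 : ℤ) 1 := by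
    intro b n
    rw [fl2_apply, Finset.mem_product]
    unfold pt
    simp only [Prod.fst_sub, Prod.snd_sub, sub_self]
    refine ⟨zero_memS, ?_⟩
    have := floor_neg_mem ((n : ℝ) * b)
    rwa [← mul_neg] at this
  refine bad_congr (fun lam h0 h1 => nu_eq_equiv fl2 J_fl2 (key b) (fun n => ?_) h0 h1)
    (by simp) h
  have := key (-b) n
  rwa [neg_neg] at this

lemma bad_sw {a b : ℝ} (h : Bad (a, b)) : Bad (b, a) := by
  have key : ∀ (a b : ℝ) (n : ℕ), pt (b, a) n - sw (pt (a, b) n) ∈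
      Finset.Icc (-1 : ℤ) 1 ×ˢ Finset.Icc (-1 : ℤ) 1 := by
    intro a b n
    rw [sw_apply, Finset.mem_product]
    unfold pt
    simp only [sub_self]
    exact ⟨zero_memS, zero_memS⟩
  exact bad_congr (fun lam h0 h1 => nu_eq_equiv sw J_sw (key a b) (key b a) h0 h1)
    (by simp only; ring) h

theorem bad_all {s : ℝ × ℝ} (h1 : s.1 ≠ 0) (h2 : s.2 ≠ 0) (h3 : |s.1| ≠ |s.2|) : Bad s := by
  obtain ⟨a, b⟩ := s
  simp only at h1 h2 h3
  have hq : ∀ a b : ℝ, 0 < a → 0 < b → a ≠ b → Bad (a, b) := by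
    intro a b ha hb hab
    rcases lt_or_gt_of_ne hab with h | h
    · exact bad_sw (bad_cone (s := (b, a)) ha h)
    · exact bad_cone (s := (a, b)) hb h
  have habs : Bad (|a|, |b|) := hq _ _ (abs_pos.2 h1) (abs_pos.2 h2) h3
  have hb' : Bad (|a|, b) := by
    rcases abs_cases b with ⟨h, _⟩ | ⟨h, _⟩
    · rwa [h] at habs
    · have := bad_fl2 habs
      rwa [h, neg_neg] at this
  rcases abs_cases a with ⟨h, _⟩ | ⟨h, _⟩
  · rwa [h] at hb'
  · have := bad_fl1 hb'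
    rwa [h, neg_neg] at this

end Pool.Agent.Y919.KRW
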