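import Pool.Agent.Y919.KRW.Gen
import Pool.Agent.Y919.KRW.Dirs

set_option autoImplicit false

/-!
# Killed random walk: analyticity beyond saturation on the axes and the diagonals
-/

namespace Pool.Agent.Y919.KRW

open Filter Topology Pool.Agent.TH982.KRW
open scoped ENNReal

/-- Analyticity on all of `(λ_sat(s), 1)`. -/
def Nice (s : ℝ × ℝ) : Prop := ∀ lam : ℝ, lamSat psi s < lam → lam < 1 →
  AnalyticAt ℝ (nu psi s) lam

lemma lamSat_nonneg (s : ℝ × ℝ) : 0 ≤ lamSat psi s :=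
  Real.sSup_nonneg fun _ hx => hx.1.le

lemma le_lamSat {s : ℝ × ℝ} {lam : ℝ} (h0 : 0 < lam) (h1 : lam < 1)
    (h : nu psi s lam = |s.1| + |s.2|) : lam ≤ lamSat psi s := by
  refine le_csSup ⟨1, ?_⟩ ⟨h0, by rw [lamC_eq good_psi]; exact h1, h⟩
  rintro x ⟨_, hx, _⟩
  rw [lamC_eq good_psi] at hx
  exact hx.le

/-- The criterion: `ν_s(φ(u)) = c u` for an analytic parametrisation `φ`, and saturation for
`λ < φ(1)`. -/
lemma nice_of {s : ℝ × ℝ} (φ : ℝ → ℝ) (c : ℝ)
    (hA : ∀ u : ℝ, 0 < u → u < 1 → AnalyticAt ℝ φ u)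
    (hD : ∀ u : ℝ, 0 < u → u < 1 → deriv φ u ≠ 0)
    (hν : ∀ u : ℝ, 0 < u → u < 1 → nu psi s (φ u) = c * u)
    (hc : ContinuousOn φ (Set.Icc 0 1)) (h0 : φ 0 = 1)
    (hsat : ∀ lam : ℝ, 0 < lam → lam < φ 1 → nu psi s lam = |s.1| + |s.2|) : Nice s := by
  intro lam hl1 hl2
  have hlow : φ 1 < lam := by
    by_contra hcon
    push Not at hcon
    obtain ⟨x, hx1, hx2⟩ := exists_between hl1
    have hx0 : 0 < x := lt_of_le_of_lt (lamSat_nonneg s) hx1
    have := le_lamSat hx0 (by linarith) (hsat x hx0 (by linarith))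
    linarith
  obtain ⟨u, hu, rfl⟩ := intermediate_value_Ioo' (zero_le_one) hc ⟨hlow, by rw [h0]; exact hl2⟩
  rw [← analyticAt_comp_iff_of_deriv_ne_zero (hA u hu.1 hu.2) (hD u hu.1 hu.2)]
  have h1 : AnalyticAt ℝ (fun v : ℝ => c * v) u := analyticAt_const.mul analyticAt_id
  refine h1.congr ?_
  filter_upwards [lt_mem_nhds hu.1, gt_mem_nhds hu.2] with v hv0 hv1
  exact (hν v hv0 hv1).symm

lemma one_lt_Jh_diag {u : ℝ} (h0 : 0 < u) (h1 : u ≤ 1) : 1 < Jh (u, u) := by
  have := Jh_lt (a := 0) (b := u) (c := 0) (d := u) le_rfl h0.le h1 le_rfl h0 h1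
  rwa [Jh_zero] at this

lemma one_lt_Jh_axis {u : ℝ} (h0 : 0 < u) (h1 : u ≤ 1) : 1 < Jh (u, 0) := by
  rw [Jh_comm]
  have := Jh_lt (a := 0) (b := 0) (c := 0) (d := u) le_rfl le_rfl zero_le_one le_rfl h0 h1
  rwa [Jh_zero] at this

lemma param_inv {x : ℝ} (h : 1 < x) : 0 < 1 / x ∧ 1 / x < 1 ∧ 1 / x * x = 1 := by
  have h0 : 0 < x := by linarith
  exact ⟨by positivity, by rw [div_lt_one h0]; exact h, by field_simp⟩

/-- the value of `ν` on the diagonal -/
lemma nu_diag {a : ℝ} (ha : 0 < a) {u : ℝ} (h0 : 0 < u) (h1 : u < 1) :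
    nu psi (a, a) (1 / Jh (u, u)) = 2 * a * u := by
  obtain ⟨hL0, hL1, hLm⟩ := param_inv (one_lt_Jh_diag h0 h1.le)
  set lam : ℝ := 1 / Jh (u, u) with hlam
  have hm : m1 lam (u, u) = m2 lam (u, u) := by unfold m1 m2; simp only; ring
  have hDu : 0 < D u := D_pos h0 h1.le
  have hFu : 1 ≤ F u := F_one_le (by rw [abs_of_pos h0]; exact h1.le)
  have hm1 : 0 < m1 lam (u, u) := by
    unfold m1
    exact mul_pos (mul_pos hL0 cc_pos) (mul_pos hDu (by linarith))
  apply le_antisymm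
  · refine le_of_forall_pos_le_add fun ε hε => ?_
    obtain ⟨δ, hδ0, hδ1, hδ2⟩ : ∃ δ : ℝ, 0 < δ ∧ δ < a ∧ 2 * δ ≤ ε :=
      ⟨min (a / 2) (ε / 2), by positivity, lt_of_le_of_lt (min_le_left _ _) (by linarith), by
        have := min_le_right (a / 2) (ε / 2); linarith⟩
    have hκ0 : 0 < (a - δ) / m1 lam (u, u) := div_pos (by linarith) hm1
    have hκ1 : (a - δ) / m1 lam (u, u) * m1 lam (u, u) = a - δ := div_mul_cancel₀ _ hm1.ne'
    have h := nu_le_gen hL0 hL1 (t := (u, u)) ⟨h0, h1⟩ ⟨h0, h1⟩ hLm (s := (a, a)) hκ0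
      (by rw [hκ1]; simp only; linarith)
    rw [← hm, hκ1] at h
    simp only at h
    rw [show a - (a - δ) = δ by ring, abs_of_pos hδ0] at h
    refine h.trans ?_
    nlinarith
  · refine le_of_forall_pos_lt_add fun ε hε => ?_
    set δ : ℝ := min (u / 2) (ε / (4 * a)) with hδ
    have hδ0 : 0 < δ := by positivity
    have hδ1 : δ ≤ u / 2 := min_le_left _ _
    have hδ2 : a * δ ≤ ε / 4 := by
      calc a * δ ≤ a * (ε / (4 * a)) := mul_le_mul_of_nonneg_left (min_le_right _ _) ha.le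
        _ = ε / 4 := by field_simp
    have hlt : Jh (u - δ, u - δ) < Jh (u, u) :=
      Jh_lt (by linarith) (by linarith) h1.le (by linarith) (by linarith) h1.le
    have h := nu_ge good_psi hL0 hL1 (a, a) (u - δ, u - δ)
      (Lt_lt_one hL0.le (by rw [abs_of_pos (by simp only; linarith)]; simp only; linarith)
        (by rw [abs_of_pos (by simp only; linarith)]; simp only; linarith)
        (lt_of_lt_of_eq (mul_lt_mul_of_pos_left hlt hL0) hLm))
    simp only at h
    nlinarith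

/-- the value of `ν` on the axis -/
lemma nu_axis {a : ℝ} (ha : 0 < a) {u : ℝ} (h0 : 0 < u) (h1 : u < 1) :
    nu psi (a, 0) (1 / Jh (u, 0)) = a * u := by
  obtain ⟨hL0, hL1, hLm⟩ := param_inv (one_lt_Jh_axis h0 h1.le)
  set lam : ℝ := 1 / Jh (u, 0) with hlam
  have hF0 : 1 ≤ F 0 := F_one_le (by norm_num)
  have hF1 : 1 ≤ F 1 := F_one_le (by norm_num)
  have hFu : 1 ≤ F u := F_one_le (by rw [abs_of_pos h0]; exact h1.le)
  have hDh : 0 < D (u / 2) := D_pos (by linarith) (by linarith)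
  apply le_antisymm
  · refine le_of_forall_pos_le_add fun ε hε => ?_
    -- a small `t2`
    have z0 : (0 : ℝ) ∈ Set.Icc (-1 : ℝ) 1 := by norm_num
    have cD := (continuousOn_D 0 z0)
    have cF := (continuousOn_F 0 z0)
    set κ' : ℝ := ε * D (u / 2) / (4 * a * F 1) with hκ'
    have hκ'0 : 0 < κ' := by positivity
    have hFh : F (u / 2) < F u := F_lt (by linarith) (by linarith) h1.le
    have eD : ∀ᶠ v in 𝓝[Set.Icc (-1 : ℝ) 1] 0, D v < κ' :=
      cD.eventually (gt_mem_nhds (by rw [D_zero]; exact hκ'0))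
    have hval0 : F 0 < F u * F 0 / F (u / 2) := by
      have : 1 ≤ F (u / 2) := F_one_le (by rw [abs_of_pos (by linarith)]; linarith)
      rw [lt_div_iff₀ (by linarith)]
      nlinarith
    have eF : ∀ᶠ v in 𝓝[Set.Icc (-1 : ℝ) 1] 0, F v < F u * F 0 / F (u / 2) :=
      cF.eventually (gt_mem_nhds hval0)
    have e := eD.and eF
    rw [eventually_nhdsWithin_iff, Metric.eventually_nhds_iff] at e
    obtain ⟨r, hr, he⟩ := e
    obtain ⟨t2, ht20, ht21, ht2r⟩ : ∃ t2 : ℝ, 0 < t2 ∧ t2 < 1 ∧ t2 < r :=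
      ⟨min (1 / 2) (r / 2), by positivity, lt_of_le_of_lt (min_le_left _ _) (by norm_num),
        lt_of_le_of_lt (min_le_right _ _) (by linarith)⟩
    have ht2 := he (y := t2) (by rw [Real.dist_eq, sub_zero, abs_of_pos ht20]; exact ht2r)
      ⟨by linarith, ht21.le⟩
    have hFt2 : 1 ≤ F t2 := F_one_le (by rw [abs_of_pos ht20]; exact ht21.le)
    have hF0t2 : F 0 < F t2 := F_lt le_rfl ht20 ht21.le
    have hDt2 : 0 < D t2 := D_pos ht20 ht21.le
    have hFh1 : 1 ≤ F (u / 2) := F_one_le (by rw [abs_of_pos (by linarith)]; linarith)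
    have hin : F u * F 0 / F t2 ∈ Set.Ioo (F (u / 2)) (F u) := by
      constructor
      · have h5 := ht2.2
        rw [lt_div_iff₀ (by linarith)] at h5
        rw [lt_div_iff₀ (by linarith)]
        linarith
      · rw [div_lt_iff₀ (by linarith)]
        exact mul_lt_mul_of_pos_left hF0t2 (by linarith)
    have hcont : ContinuousOn F (Set.Icc (u / 2) u) :=
      continuousOn_F.mono (Set.Icc_subset_Icc (by linarith) h1.le)
    obtain ⟨t1, ht1, ht1F⟩ := intermediate_value_Ioo (by linarith : u / 2 ≤ u) hcont hin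
    have hprod : F t1 * F t2 = F u * F 0 := by rw [ht1F]; field_simp
    have hone : lam * Jh (t1, t2) = 1 := by
      have : Jh (t1, t2) = Jh (u, 0) := by unfold Jh; simp only [hprod]
      rw [this]; exact hLm
    have ht10 : 0 < t1 := by linarith [ht1.1]
    have ht11 : t1 < 1 := ht1.2.trans h1
    have hDt1 : D (u / 2) ≤ D t1 := D_mono (by linarith) ht1.1.le ht11.le
    have hFt1 : F t1 ≤ F 1 := F_le ht10.le ht11.le le_rfl
    have hFt1' : 1 ≤ F t1 := F_one_le (by rw [abs_of_pos ht10]; exact ht11.le)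
    have hm1 : 0 < m1 lam (t1, t2) := by
      unfold m1
      exact mul_pos (mul_pos hL0 cc_pos) (mul_pos (by simp only; linarith) (by simp only; linarith))
    have hm2 : 0 < m2 lam (t1, t2) := by
      unfold m2
      exact mul_pos (mul_pos hL0 cc_pos) (mul_pos (by simp only; linarith) hDt2)
    obtain ⟨δ, hδ0, hδ1, hδ2⟩ : ∃ δ : ℝ, 0 < δ ∧ δ < a ∧ δ ≤ ε / 2 :=
      ⟨min (a / 2) (ε / 2), by positivity, lt_of_le_of_lt (min_le_left _ _) (by linarith),
        min_le_right _ _⟩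
    have hκ0 : 0 < (a - δ) / m1 lam (t1, t2) := div_pos (by linarith) hm1
    have hκ1 : (a - δ) / m1 lam (t1, t2) * m1 lam (t1, t2) = a - δ := div_mul_cancel₀ _ hm1.ne'
    have h := nu_le_gen hL0 hL1 (t := (t1, t2)) ⟨ht10, ht11⟩ ⟨ht20, ht21⟩ hone (s := (a, 0)) hκ0
      (by rw [hκ1]; simp only; linarith)
    rw [hκ1] at h
    set w : ℝ := (a - δ) / m1 lam (t1, t2) * m2 lam (t1, t2) with hw
    have hw0 : 0 < w := mul_pos hκ0 hm2
    have hwle : w ≤ ε / 4 := by
      -- `m2 ≤ (ε / (4 a)) m1`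
      have h7 : m2 lam (t1, t2) ≤ ε / (4 * a) * m1 lam (t1, t2) := by
        unfold m1 m2
        simp only
        have h8 : F t1 * D t2 ≤ ε / (4 * a) * (D t1 * F t2) := by
          calc F t1 * D t2 ≤ F 1 * κ' := mul_le_mul hFt1 ht2.1.le hDt2.le (by linarith)
            _ = ε / (4 * a) * (D (u / 2) * 1) := by rw [hκ']; field_simp
            _ ≤ ε / (4 * a) * (D t1 * F t2) := by
                refine mul_le_mul_of_nonneg_left ?_ (by positivity)
                exact mul_le_mul hDt1 hFt2 zero_le_one (by linarith)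
        have hp : 0 < lam * cc := mul_pos hL0 cc_pos
        have := mul_le_mul_of_nonneg_left h8 hp.le
        linarith
      calc w ≤ (a - δ) / m1 lam (t1, t2) * (ε / (4 * a) * m1 lam (t1, t2)) :=
            mul_le_mul_of_nonneg_left h7 hκ0.le
        _ = ((a - δ) / m1 lam (t1, t2) * m1 lam (t1, t2)) * (ε / (4 * a)) := by ring
        _ = (a - δ) * (ε / (4 * a)) := by rw [hκ1]
        _ ≤ a * (ε / (4 * a)) := mul_le_mul_of_nonneg_right (by linarith) (by positivity)
        _ = ε / 4 := by field_simp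
    simp only at h
    rw [zero_sub, abs_neg, abs_of_pos hw0] at h
    have h9 : t2 * w ≤ w := mul_le_of_le_one_left hw0.le ht21.le
    have h10 : (1 - t1) * (a - δ) = a - a * t1 - δ + t1 * δ := by ring
    have h11 : 0 ≤ t1 * δ := by positivity
    have h12 : a * t1 ≤ a * u := mul_le_mul_of_nonneg_left ht1.2.le ha.le
    linarith
  · refine le_of_forall_pos_lt_add fun ε hε => ?_
    set δ : ℝ := min (u / 2) (ε / (4 * a)) with hδ
    have hδ0 : 0 < δ := by positivity
    have hδ1 : δ ≤ u / 2 := min_le_left _ _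
    have hδ2 : a * δ ≤ ε / 4 := by
      calc a * δ ≤ a * (ε / (4 * a)) := mul_le_mul_of_nonneg_left (min_le_right _ _) ha.le
        _ = ε / 4 := by field_simp
    have hlt : Jh (u - δ, 0) < Jh (u, 0) := by
      rw [Jh_comm (u - δ), Jh_comm u]
      exact Jh_lt le_rfl le_rfl zero_le_one (by linarith) (by linarith) h1.le
    have h := nu_ge good_psi hL0 hL1 (a, 0) (u - δ, 0)
      (Lt_lt_one hL0.le (by rw [abs_of_pos (by simp only; linarith)]; simp only; linarith)
        (by simp)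
        (lt_of_lt_of_eq (mul_lt_mul_of_pos_left hlt hL0) hLm))
    simp only at h
    nlinarith

lemma Jh_axis_zero : Jh (0, 0) = 1 := Jh_zero

lemma one_le_Jh_diag {u : ℝ} (h0 : 0 ≤ u) (h1 : u ≤ 1) : 1 ≤ Jh (u, u) := by
  rcases h0.eq_or_lt with h | h
  · rw [← h, Jh_zero]
  · exact (one_lt_Jh_diag h h1).le

lemma one_le_Jh_axis {u : ℝ} (h0 : 0 ≤ u) (h1 : u ≤ 1) : 1 ≤ Jh (u, 0) := by
  rcases h0.eq_or_lt with h | h
  · rw [← h, Jh_zero]
  · exact (one_lt_Jh_axis h h1).le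

lemma Lt_lt_one' {lam : ℝ} (h0 : 0 < lam) {t : ℝ × ℝ} (h1 : |t.1| ≤ 1) (h2 : |t.2| ≤ 1)
    (hJ : 1 ≤ Jh t) (h : lam < 1 / Jh t) : Lt psi lam t < 1 := by
  refine Lt_lt_one h0.le h1 h2 ?_
  rwa [lt_div_iff₀ (by linarith)] at h

theorem nice_diag {a : ℝ} (ha : 0 < a) : Nice (a, a) := by
  have hd : ∀ u : ℝ, 0 < u → u < 1 →
      HasDerivAt (fun u : ℝ => Jh (u, u)) (cc * (D u * F u + F u * D u)) u := by
    intro u h0 h1
    have hF := hasDerivAt_F (u := u) ⟨by linarith, h1⟩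
    exact ((hF.mul hF).sub_const 1).const_mul cc
  refine nice_of (fun u => 1 / Jh (u, u)) (2 * a) ?_ ?_ (fun u h0 h1 => nu_diag ha h0 h1) ?_ ?_ ?_
  · intro u h0 h1
    have hF : AnalyticAt ℝ F u := analyticAt_F ⟨by linarith, h1⟩
    have h2 : AnalyticAt ℝ (fun u : ℝ => Jh (u, u)) u :=
      analyticAt_const.mul ((hF.mul hF).sub analyticAt_const)
    exact analyticAt_const.div h2 (by have := one_lt_Jh_diag h0 h1.le; linarith)
  · intro u h0 h1
    have hJ := one_lt_Jh_diag h0 h1.le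
    have hD : 0 < D u := D_pos h0 h1.le
    have hF : 1 ≤ F u := F_one_le (by rw [abs_of_pos h0]; exact h1.le)
    have h2 := (hd u h0 h1).inv (by linarith : Jh (u, u) ≠ 0)
    have h3 : (fun u : ℝ => 1 / Jh (u, u)) = (fun u : ℝ => Jh (u, u))⁻¹ := by
      funext v; simp
    rw [h3, h2.deriv]
    have h4 : 0 < cc * (D u * F u + F u * D u) :=
      mul_pos cc_pos (by nlinarith)
    have h5 : 0 < Jh (u, u) ^ 2 := by positivity
    exact (div_neg_of_neg_of_pos (by linarith) h5).ne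
  · have hF : ContinuousOn F (Set.Icc 0 1) :=
      continuousOn_F.mono (Set.Icc_subset_Icc (by norm_num) le_rfl)
    have h2 : ContinuousOn (fun u : ℝ => Jh (u, u)) (Set.Icc 0 1) :=
      continuousOn_const.mul ((hF.mul hF).sub continuousOn_const)
    exact continuousOn_const.div h2 fun u hu => by
      have := one_le_Jh_diag hu.1 hu.2
      linarith
  · simp only [Jh_zero, div_one]
  · intro lam h0 h1
    have hJ := one_lt_Jh_diag one_pos le_rfl
    have hlam1 : lam < 1 := by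
      refine h1.trans ?_
      exact (param_inv hJ).2.1
    have h3 := nu_ge good_psi h0 hlam1 (a, a) (1, 1)
      (Lt_lt_one' h0 (by simp) (by simp) hJ.le h1)
    have h4 := nu_le_norm h0 hlam1 (s := (a, a)) ha
    simp only [one_mul] at h3 h4 ⊢
    rw [abs_of_pos ha] at h4 ⊢
    linarith

theorem nice_axis {a : ℝ} (ha : 0 < a) : Nice (a, 0) := by
  have hd : ∀ u : ℝ, 0 < u → u < 1 →
      HasDerivAt (fun u : ℝ => Jh (u, 0)) (cc * (D u * F 0)) u := by
    intro u h0 h1
    have hF := hasDerivAt_F (u := u) ⟨by linarith, h1⟩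
    exact ((hF.mul_const (F 0)).sub_const 1).const_mul cc
  refine nice_of (fun u => 1 / Jh (u, 0)) a ?_ ?_ (fun u h0 h1 => nu_axis ha h0 h1) ?_ ?_ ?_
  · intro u h0 h1
    have hF : AnalyticAt ℝ F u := analyticAt_F ⟨by linarith, h1⟩
    have h2' : AnalyticAt ℝ (fun u : ℝ => cc * (F u * F 0 - 1)) u :=
      analyticAt_const.mul ((hF.mul analyticAt_const).sub analyticAt_const)
    have h2 : AnalyticAt ℝ (fun u : ℝ => Jh (u, 0)) u := h2'
    exact analyticAt_const.div h2 (by have := one_lt_Jh_axis h0 h1.le; linarith)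
  · intro u h0 h1
    have hJ := one_lt_Jh_axis h0 h1.le
    have hD : 0 < D u := D_pos h0 h1.le
    have hF : 1 ≤ F 0 := F_one_le (by norm_num)
    have h2 := (hd u h0 h1).inv (by linarith : Jh (u, 0) ≠ 0)
    have h3 : (fun u : ℝ => 1 / Jh (u, 0)) = (fun u : ℝ => Jh (u, 0))⁻¹ := by
      funext v; simp
    rw [h3, h2.deriv]
    have h4 : 0 < cc * (D u * F 0) := mul_pos cc_pos (mul_pos hD (by linarith))
    have h5 : 0 < Jh (u, 0) ^ 2 := by positivity
    exact (div_neg_of_neg_of_pos (by linarith) h5).ne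
  · have hF : ContinuousOn F (Set.Icc 0 1) :=
      continuousOn_F.mono (Set.Icc_subset_Icc (by norm_num) le_rfl)
    have h2' : ContinuousOn (fun u : ℝ => cc * (F u * F 0 - 1)) (Set.Icc 0 1) :=
      continuousOn_const.mul ((hF.mul continuousOn_const).sub continuousOn_const)
    have h2 : ContinuousOn (fun u : ℝ => Jh (u, 0)) (Set.Icc 0 1) := h2'
    exact continuousOn_const.div h2 fun u hu => by
      have := one_le_Jh_axis hu.1 hu.2
      linarith
  · simp only [Jh_zero, div_one]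
  · intro lam h0 h1
    have hJ := one_lt_Jh_axis one_pos le_rfl
    have hlam1 : lam < 1 := by
      refine h1.trans ?_
      exact (param_inv hJ).2.1
    have h3 := nu_ge good_psi h0 hlam1 (a, 0) (1, 0)
      (Lt_lt_one' h0 (by simp) (by simp) hJ.le h1)
    have h4 := nu_le_norm h0 hlam1 (s := (a, 0)) ha
    simp only [one_mul, mul_zero, add_zero, abs_zero] at h3 h4 ⊢
    rw [abs_of_pos ha]
    linarith

lemma nice_congr {s s' : ℝ × ℝ} (h : ∀ lam : ℝ, 0 < lam → lam < 1 → nu psi s' lam = nu psi s lam)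
    (ha : |s'.1| + |s'.2| = |s.1| + |s.2|) (hs : Nice s) : Nice s' := by
  intro lam hl1 hl2
  have hsat : lamSat psi s' = lamSat psi s := by
    unfold lamSat
    congr 1
    ext x
    simp only [Set.mem_ofPred_eq]
    refine and_congr_right fun hx0 => and_congr_right fun hx1 => ?_
    rw [lamC_eq good_psi] at hx1
    rw [h x hx0 hx1, ha]
  have hl0 : 0 < lam := lt_of_le_of_lt (lamSat_nonneg s') hl1
  rw [hsat] at hl1
  refine (hs lam hl1 hl2).congr ?_
  filter_upwards [lt_mem_nhds hl0, gt_mem_nhds hl2] with x hx0 hx1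
  exact (h x hx0 hx1).symm

lemma nice_fl1 {a b : ℝ} (h : Nice (a, b)) : Nice (-a, b) := by
  have key : ∀ (a : ℝ) (n : ℕ), pt (-a, b) n - fl1 (pt (a, b) n) ∈
      Finset.Icc (-1 : ℤ) 1 ×ˢ Finset.Icc (-1 : ℤ) 1 := by
    intro a n
    rw [fl1_apply, Finset.mem_product]
    unfold pt
    simp only [Prod.fst_sub, Prod.snd_sub, sub_self]
    refine ⟨?_, zero_memS⟩
    have := floor_neg_mem ((n : ℝ) * a)
    rwa [← mul_neg] at this
  refine nice_congr (fun lam h0 h1 => nu_eq_equiv fl1 J_fl1 (key a) (fun n => ?_) h0 h1)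
    (by simp) h
  have := key (-a) n
  rwa [neg_neg] at this

lemma nice_fl2 {a b : ℝ} (h : Nice (a, b)) : Nice (a, -b) := by
  have key : ∀ (b : ℝ) (n : ℕ), pt (a, -b) n - fl2 (pt (a, b) n) ∈
      Finset.Icc (-1 : ℤ) 1 ×ˢ Finset.Icc (-1 : ℤ) 1 := by
    intro b n
    rw [fl2_apply, Finset.mem_product]
    unfold pt
    simp only [Prod.fst_sub, Prod.snd_sub, sub_self]
    refine ⟨zero_memS, ?_⟩
    have := floor_neg_mem ((n : ℝ) * b)
    rwa [← mul_neg] at this
  refine nice_congr (fun lam h0 h1 => nu_eq_equiv fl2 J_fl2 (key b) (fun n => ?_) h0 h1)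
    (by simp) h
  have := key (-b) n
  rwa [neg_neg] at this

lemma nice_sw {a b : ℝ} (h : Nice (a, b)) : Nice (b, a) := by
  have key : ∀ (a b : ℝ) (n : ℕ), pt (b, a) n - sw (pt (a, b) n) ∈
      Finset.Icc (-1 : ℤ) 1 ×ˢ Finset.Icc (-1 : ℤ) 1 := by
    intro a b n
    rw [sw_apply, Finset.mem_product]
    unfold pt
    simp only [sub_self]
    exact ⟨zero_memS, zero_memS⟩
  exact nice_congr (fun lam h0 h1 => nu_eq_equiv sw J_sw (key a b) (key b a) h0 h1)
    (by simp only; ring) h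

/-- The eight exceptional directions. -/
theorem nice_all {s : ℝ × ℝ} (h0 : s.1 ^ 2 + s.2 ^ 2 = 1)
    (h : s.1 = 0 ∨ s.2 = 0 ∨ |s.1| = |s.2|) : Nice s := by
  obtain ⟨a, b⟩ := s
  simp only at h0 h
  have hax : ∀ a : ℝ, a ≠ 0 → Nice (a, 0) := by
    intro a ha
    have h1 := nice_axis (abs_pos.2 ha)
    rcases abs_cases a with ⟨h, _⟩ | ⟨h, _⟩
    · rwa [h] at h1
    · have := nice_fl1 h1
      rwa [h, neg_neg] at this
  by_cases ha : a = 0
  · have hb : b ≠ 0 := by rintro rfl; rw [ha] at h0; norm_num at h0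
    rw [ha]
    exact nice_sw (hax b hb)
  · by_cases hb : b = 0
    · rw [hb]; exact hax a ha
    · have hab : |a| = |b| := by tauto
      have h1 : Nice (|a|, |a|) := nice_diag (abs_pos.2 ha)
      have h2 : Nice (a, |a|) := by
        rcases abs_cases a with ⟨h, _⟩ | ⟨h, _⟩
        · rwa [h] at h1 ⊢
        · have h3 := nice_fl1 h1
          have h4 : -|a| = a := by rw [h, neg_neg]
          rwa [h4] at h3
      rw [hab] at h2
      rcases abs_cases b with ⟨h, _⟩ | ⟨h, _⟩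
      · rwa [h] at h2
      · have h3 := nice_fl2 h2
        have h4 : -|b| = b := by rw [h, neg_neg]
        rwa [h4] at h3

lemma lt_one_of_lt_lamExp {lam : ℝ} (h : (lam : EReal) < lamExp psi) : lam < 1 := by
  have h1 := h.trans_le (min_le_left _ _)
  rw [lamC_eq good_psi] at h1
  exact_mod_cast h1

end Pool.Agent.Y919.KRW
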