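import Pool.Agent.TH982.KRW.Main

set_option autoImplicit false

/-!
# Killed random walk: upper bounds for the inverse correlation length
-/

namespace Pool.Agent.Y919.KRW

open Filter Topology Pool.Agent.TH982.KRW
open scoped ENNReal

/-- Upper bound for `ν_s(λ)`: `κ n` steps with drift `(μ₁, μ₂)` and one long step. -/
theorem nu_le_gen {lam : ℝ} (hl : 0 < lam) (h1 : lam < 1) {t : ℝ × ℝ} (ht1 : 0 < t.1 ∧ t.1 < 1)
    (ht2 : 0 < t.2 ∧ t.2 < 1) (hone : lam * Jh t = 1) {s : ℝ × ℝ} {κ : ℝ} (hκ0 : 0 < κ)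
    (hκ : κ * m1 lam t < s.1) :
    nu psi s lam ≤ s.1 - (1 - t.1) * (κ * m1 lam t) + t.2 * (κ * m2 lam t) +
      |s.2 - κ * m2 lam t| := by
  have hm1 : 0 < m1 lam t := mul_pos (mul_pos hl cc_pos) (mul_pos (D_pos ht1.1 ht1.2.le)
    (by linarith [F_one_le (u := t.2) (by rw [abs_of_pos ht2.1]; exact ht2.2.le)]))
  have hm2 : 0 < m2 lam t := mul_pos (mul_pos hl cc_pos) (mul_pos
    (by linarith [F_one_le (u := t.1) (by rw [abs_of_pos ht1.1]; exact ht1.2.le)])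
    (D_pos ht2.1 ht2.2.le))
  set μ1 := m1 lam t with hμ1
  set μ2 := m2 lam t with hμ2
  set ρ : ℝ := s.1 - κ * μ1 with hρ
  have hρ0 : 0 < ρ := by rw [hρ]; linarith
  set W : ℝ := |s.2 - κ * μ2| with hW
  have hW0 : 0 ≤ W := abs_nonneg _
  set T : ℝ := s.1 - (1 - t.1) * (κ * μ1) + t.2 * (κ * μ2) + W with hT
  -- it suffices to prove the bound with an error
  have main : ∀ η : ℝ, 0 < η → κ * η ≤ ρ / 2 → nu psi s lam ≤ T + 3 * (κ * η) := by
    intro η hη hηρ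
    obtain ⟨N0, hbox⟩ := box hl ht1 ht2 hone hη
    set A1 : ℝ := 2 * (κ * (μ1 + μ2 + η)) + 3 with hA1
    set A2 : ℝ := s.1 + 1 + κ * (μ1 + η) with hA2
    set A3 : ℝ := 1 + μ2 + κ * η + W with hA3
    set C : ℝ := (2 + μ1 + 2 * μ2) + (Real.log 2 + 2 * Real.log A1) - Real.log lam - Real.log cc +
      2 * Real.log (1 + A2 ^ 2) + 2 * Real.log (1 + A3 ^ 2) with hC
    have hA1p : 0 < A1 := by positivity
    have l1' : Tendsto (fun n : ℕ => Real.log (n : ℝ) / (n : ℝ)) atTop (𝓝 0) :=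
      (Real.isLittleO_log_id_atTop.tendsto_div_nhds_zero).comp tendsto_natCast_atTop_atTop
    have l2' : Tendsto (fun n : ℕ => C / (n : ℝ)) atTop (𝓝 0) :=
      tendsto_const_div_atTop_nhds_zero_nat _
    have hlimR : Tendsto (fun n : ℕ => (T + 3 * (κ * η)) + C / (n : ℝ) +
        10 * (Real.log (n : ℝ) / (n : ℝ))) atTop
        (𝓝 ((T + 3 * (κ * η)) + 0 + 10 * 0)) :=
      (tendsto_const_nhds.add l2').add (l1'.const_mul 10)
    rw [mul_zero, add_zero, add_zero] at hlimR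
    refine le_of_tendsto_of_tendsto (nu_tendsto good_psi hl h1 s) hlimR ?_
    have hN : Tendsto (fun n : ℕ => ⌊(n : ℝ) * κ⌋₊) atTop atTop := by
      refine tendsto_nat_floor_atTop.comp ?_
      exact Tendsto.atTop_mul_const hκ0 tendsto_natCast_atTop_atTop
    have hn2 : ∀ᶠ n : ℕ in atTop, 1 < (n : ℝ) * (ρ / 2) * 2 := by
      have : Tendsto (fun n : ℕ => (n : ℝ) * (ρ / 2) * 2) atTop atTop :=
        (Tendsto.atTop_mul_const (by positivity) tendsto_natCast_atTop_atTop).atTop_mul_const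
          (by norm_num)
      exact this.eventually_gt_atTop 1
    filter_upwards [hN.eventually_ge_atTop N0, hn2, eventually_ge_atTop 1] with n hnN hnρ hn1
    have hn1' : (1 : ℝ) ≤ n := by exact_mod_cast hn1
    have hn0 : (0 : ℝ) < n := by linarith
    obtain ⟨x, bx1, bx2, hx⟩ := hbox _ hnN
    set N : ℕ := ⌊(n : ℝ) * κ⌋₊ with hNd
    have hNle : (N : ℝ) ≤ n * κ := Nat.floor_le (by positivity)
    have hNlt : (n : ℝ) * κ < N + 1 := Nat.lt_floor_add_one _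
    have hN0' : (0 : ℝ) ≤ N := N.cast_nonneg
    set z : Sx := pt s n with hz
    obtain ⟨bz1, bz2⟩ := pt_bounds s n
    rw [← hz] at bz1 bz2
    rw [abs_le] at bx1 bx2 bz1 bz2
    have ey1 : (((z - x).1 : ℤ) : ℝ) = (z.1 : ℝ) - x.1 := by
      rw [Prod.fst_sub]; push_cast; ring
    have ey2 : (((z - x).2 : ℤ) : ℝ) = (z.2 : ℝ) - x.2 := by
      rw [Prod.snd_sub]; push_cast; ring
    have hNη : (N : ℝ) * η ≤ n * κ * η := mul_le_mul_of_nonneg_right hNle hη.le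
    have hNμ1 : (N : ℝ) * μ1 ≤ n * κ * μ1 := mul_le_mul_of_nonneg_right hNle hm1.le
    have hNμ2 : (N : ℝ) * μ2 ≤ n * κ * μ2 := mul_le_mul_of_nonneg_right hNle hm2.le
    have hNμ1l : (n : ℝ) * κ * μ1 - μ1 ≤ N * μ1 := by
      have := mul_le_mul_of_nonneg_right hNlt.le hm1.le
      linarith
    have hNμ2l : (n : ℝ) * κ * μ2 - μ2 ≤ N * μ2 := by
      have := mul_le_mul_of_nonneg_right hNlt.le hm2.le
      linarith
    have hNμ1' : 0 ≤ (N : ℝ) * μ1 := mul_nonneg hN0' hm1.le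
    have hNη' : 0 ≤ (N : ℝ) * η := mul_nonneg hN0' hη.le
    have hηρn : (n : ℝ) * (κ * η) ≤ n * (ρ / 2) := mul_le_mul_of_nonneg_left hηρ hn0.le
    have hρn : (n : ℝ) * ρ = n * s.1 - n * κ * μ1 := by rw [hρ]; ring
    have hy1pos : (0 : ℝ) < (((z - x).1 : ℤ) : ℝ) := by
      rw [ey1]; linarith
    have hy1pos' : 0 < (z - x).1 := by exact_mod_cast hy1pos
    set R : ℕ := ⌈(N : ℝ) * (μ1 + μ2 + η)⌉₊ with hR
    have hRle : (R : ℝ) ≤ n * (κ * (μ1 + μ2 + η)) + 1 := by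
      have h3 := (Nat.ceil_lt_add_one (by positivity : 0 ≤ (N : ℝ) * (μ1 + μ2 + η))).le
      have h4 : (N : ℝ) * (μ1 + μ2 + η) ≤ n * κ * (μ1 + μ2 + η) :=
        mul_le_mul_of_nonneg_right hNle (by positivity)
      linarith
    have hc : (0 : ℝ) < 1 / (2 * (2 * (R : ℝ) + 1) ^ 2) := by positivity
    have hlow := g_lower hl h1 hc hx hy1pos'
    -- logarithms
    have hlogc : -Real.log (1 / (2 * (2 * (R : ℝ) + 1) ^ 2)) ≤
        Real.log 2 + 2 * Real.log A1 + 2 * Real.log n := by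
      rw [one_div, Real.log_inv, neg_neg, Real.log_mul (by norm_num) (by positivity), Real.log_pow]
      have h5 : 2 * (R : ℝ) + 1 ≤ A1 * n := by rw [hA1]; linarith
      have h6 := Real.log_le_log (by positivity) h5
      rw [Real.log_mul hA1p.ne' hn0.ne'] at h6
      push_cast
      linarith
    have hq1 : |(((z - x).1 : ℤ) : ℝ)| ≤ n * A2 := by
      rw [abs_of_pos hy1pos, ey1, hA2]
      have hpp : 0 ≤ (n : ℝ) * κ * μ1 := by positivity
      linarith
    have hWn : |(n : ℝ) * s.2 - n * κ * μ2| = n * W := by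
      rw [hW, ← abs_of_pos hn0, ← abs_mul, abs_of_pos hn0]
      congr 1; ring
    have hμ2N : |(n : ℝ) * s.2 - N * μ2| ≤ μ2 + n * W := by
      rw [← hWn]
      have h3 := abs_sub_abs_le_abs_sub ((n : ℝ) * s.2 - N * μ2) ((n : ℝ) * s.2 - n * κ * μ2)
      have h4 : |((n : ℝ) * s.2 - N * μ2) - ((n : ℝ) * s.2 - n * κ * μ2)| ≤ μ2 := by
        rw [abs_le]; constructor <;> linarith
      linarith
    have hy2 : |(((z - x).2 : ℤ) : ℝ)| ≤ 1 / 2 + μ2 + n * W + n * (κ * η) := by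
      rw [abs_le] at hμ2N
      rw [ey2, abs_le]
      constructor
      · linarith [hμ2N.1, hμ2N.2, bz2.1, bz2.2, bx2.1, bx2.2]
      · linarith [hμ2N.1, hμ2N.2, bz2.1, bz2.2, bx2.1, bx2.2]
    have hq2 : |(((z - x).2 : ℤ) : ℝ)| ≤ n * A3 := by
      refine hy2.trans ?_
      have hpp : 0 ≤ ((n : ℝ) - 1) * μ2 := mul_nonneg (by linarith) hm2.le
      rw [hA3]; linarith
    have hg1 := log_one_add_sq hn1' hq1
    have hg2 := log_one_add_sq hn1' hq2
    -- linear part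
    have hlin1 : t.1 * (x.1 : ℝ) + (((z - x).1 : ℤ) : ℝ) ≤
        n * (s.1 - (1 - t.1) * (κ * μ1)) + 1 / 2 + μ1 + n * (κ * η) := by
      rw [ey1]
      have h7 : (n : ℝ) * κ * μ1 - μ1 - N * η ≤ (x.1 : ℝ) := by linarith
      have h8 : (1 - t.1) * ((n : ℝ) * κ * μ1 - μ1 - N * η) ≤ (1 - t.1) * x.1 :=
        mul_le_mul_of_nonneg_left h7 (by linarith [ht1.2])
      have h9 : (1 - t.1) * ((N : ℝ) * η) ≤ N * η :=
        mul_le_of_le_one_left hNη' (by linarith [ht1.1])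
      have h10 : (1 - t.1) * μ1 ≤ μ1 := mul_le_of_le_one_left hm1.le (by linarith [ht1.1])
      have e : (1 - t.1) * ((n : ℝ) * κ * μ1 - μ1 - N * η) =
          n * ((1 - t.1) * (κ * μ1)) - (1 - t.1) * μ1 - (1 - t.1) * (N * η) := by ring
      rw [e] at h8
      linarith
    have hlin2 : t.2 * (x.2 : ℝ) ≤ n * (t.2 * (κ * μ2)) + n * (κ * η) := by
      have h7 : (x.2 : ℝ) ≤ n * κ * μ2 + N * η := by linarith
      have h8 := mul_le_mul_of_nonneg_left h7 ht2.1.le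
      have h9 : t.2 * ((N : ℝ) * η) ≤ N * η := mul_le_of_le_one_left hNη' ht2.2.le
      linarith
    rw [div_le_iff₀ hn0]
    have e : ((T + 3 * (κ * η)) + C / (n : ℝ) + 10 * (Real.log (n : ℝ) / (n : ℝ))) * n
        = n * (T + 3 * (κ * η)) + C + 10 * Real.log n := by
      field_simp
    rw [e, hC, hT]
    linarith
  -- let `η → 0`
  refine le_of_forall_pos_le_add fun ε hε => ?_
  set η : ℝ := min (ρ / (2 * κ)) (ε / (3 * κ)) with hη
  have hη0 : 0 < η := by positivity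
  have e1 : κ * η ≤ ρ / 2 := by
    calc κ * η ≤ κ * (ρ / (2 * κ)) := mul_le_mul_of_nonneg_left (min_le_left _ _) hκ0.le
      _ = ρ / 2 := by field_simp
  have e2 : 3 * (κ * η) ≤ ε := by
    calc 3 * (κ * η) ≤ 3 * (κ * (ε / (3 * κ))) :=
          mul_le_mul_of_nonneg_left (mul_le_mul_of_nonneg_left (min_le_right _ _) hκ0.le)
            (by norm_num)
      _ = ε := by field_simp
  linarith [main η hη0 e1]

/-- `ν_s(λ) ≤ |s|` for `s₁ > 0`. -/
theorem nu_le_norm {lam : ℝ} (hl : 0 < lam) (h1 : lam < 1) {s : ℝ × ℝ} (hs : 0 < s.1) :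
    nu psi s lam ≤ s.1 + |s.2| := by
  set A2 : ℝ := s.1 + 1 with hA2
  set A3 : ℝ := |s.2| + 1 with hA3
  set C : ℝ := 1 - Real.log lam - Real.log cc +
    2 * Real.log (1 + A2 ^ 2) + 2 * Real.log (1 + A3 ^ 2) with hC
  have l1' : Tendsto (fun n : ℕ => Real.log (n : ℝ) / (n : ℝ)) atTop (𝓝 0) :=
    (Real.isLittleO_log_id_atTop.tendsto_div_nhds_zero).comp tendsto_natCast_atTop_atTop
  have l2' : Tendsto (fun n : ℕ => C / (n : ℝ)) atTop (𝓝 0) :=
    tendsto_const_div_atTop_nhds_zero_nat _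
  have hlimR : Tendsto (fun n : ℕ => (s.1 + |s.2|) + C / (n : ℝ) +
      8 * (Real.log (n : ℝ) / (n : ℝ))) atTop
      (𝓝 ((s.1 + |s.2|) + 0 + 8 * 0)) :=
    (tendsto_const_nhds.add l2').add (l1'.const_mul 8)
  rw [mul_zero, add_zero, add_zero] at hlimR
  refine le_of_tendsto_of_tendsto (nu_tendsto good_psi hl h1 s) hlimR ?_
  have hn2 : ∀ᶠ n : ℕ in atTop, 1 < (n : ℝ) * s.1 :=
    (Tendsto.atTop_mul_const hs tendsto_natCast_atTop_atTop).eventually_gt_atTop 1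
  filter_upwards [hn2, eventually_ge_atTop 1] with n hns hn1
  have hn1' : (1 : ℝ) ≤ n := by exact_mod_cast hn1
  have hn0 : (0 : ℝ) < n := by linarith
  set z : Sx := pt s n with hz
  obtain ⟨bz1, bz2⟩ := pt_bounds s n
  rw [← hz] at bz1 bz2
  have hz2 : |(z.2 : ℝ)| ≤ n * |s.2| + 1 / 2 := by
    have h3 := abs_sub_abs_le_abs_sub (z.2 : ℝ) (n * s.2)
    rw [abs_mul, abs_of_pos hn0] at h3
    linarith
  rw [abs_le] at bz1
  have hpos : (0 : ℝ) < (z.1 : ℝ) := by linarith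
  have hpos' : 0 < (z - 0).1 := by rw [sub_zero]; exact_mod_cast hpos
  have hx : ENNReal.ofReal 1 ≤ walks psi lam 0 0 * ex (0, 0) 0 := by
    rw [walks_zero, ex_zero]; simp
  have hlow := g_lower hl h1 one_pos hx hpos'
  simp only [sub_zero, Prod.fst_zero, Prod.snd_zero, Int.cast_zero, mul_zero, add_zero,
    Real.log_one] at hlow
  have hq1 : |((z.1 : ℤ) : ℝ)| ≤ n * A2 := by
    rw [abs_of_pos hpos, hA2]; linarith
  have hq2 : |((z.2 : ℤ) : ℝ)| ≤ n * A3 := by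
    rw [hA3]; linarith
  have hg1 := log_one_add_sq hn1' hq1
  have hg2 := log_one_add_sq hn1' hq2
  rw [div_le_iff₀ hn0]
  have e : ((s.1 + |s.2|) + C / (n : ℝ) + 8 * (Real.log (n : ℝ) / (n : ℝ))) * n
      = n * (s.1 + |s.2|) + C + 8 * Real.log n := by
    field_simp
  rw [e, hC]
  linarith

end Pool.Agent.Y919.KRW
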